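import Pool.Agent.Helper87.MX.Fr

/-!
# MixingRates, S2: separation along powers of three
-/

set_option autoImplicit false

namespace Pool.Agent.Helper43.MX

open Pool.Agent.Helper87.MX

/-- the values of an odd character at two points at distance about `1 / 2` -/
theorem fourier_add_le (N : ℕ) (hN : Odd N) (t δ : ℝ) :
    ‖(fourier (N : ℤ) ((t : ℝ) : Tor) : ℂ) + fourier (N : ℤ) ((t + 1 / 2 + δ : ℝ) : Tor)‖ ≤
      2 * Real.pi * N * |δ| := by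
  rw [fourier_coe_apply, fourier_coe_apply]
  have e1 : Complex.exp (2 * Real.pi * Complex.I * ((N : ℤ) : ℂ) * ((t + 1 / 2 + δ : ℝ) : ℂ) /
      ((1 : ℝ) : ℂ)) = -(Complex.exp (2 * Real.pi * Complex.I * ((N : ℤ) : ℂ) * (t : ℂ) /
        ((1 : ℝ) : ℂ)) * Complex.exp (Complex.I * ((2 * Real.pi * N * δ : ℝ) : ℂ))) := by
    have e2 : 2 * Real.pi * Complex.I * ((N : ℤ) : ℂ) * ((t + 1 / 2 + δ : ℝ) : ℂ) /
        ((1 : ℝ) : ℂ) = 2 * Real.pi * Complex.I * ((N : ℤ) : ℂ) * (t : ℂ) / ((1 : ℝ) : ℂ) +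
          Complex.I * ((2 * Real.pi * N * δ : ℝ) : ℂ) + (N : ℂ) * (Real.pi * Complex.I) := by
      push_cast
      ring
    rw [e2, Complex.exp_add, Complex.exp_add, Complex.exp_nat_mul, Complex.exp_pi_mul_I,
      hN.neg_one_pow]
    ring
  rw [e1]
  have e3 : ∀ u v : ℂ, u + -(u * v) = -(u * (v - 1)) := fun u v => by ring
  rw [e3, norm_neg, norm_mul]
  have e4 : ‖Complex.exp (2 * Real.pi * Complex.I * ((N : ℤ) : ℂ) * (t : ℂ) /
      ((1 : ℝ) : ℂ))‖ = 1 := by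
    have e5 : 2 * Real.pi * Complex.I * ((N : ℤ) : ℂ) * (t : ℂ) / ((1 : ℝ) : ℂ) =
        ((2 * Real.pi * N * t : ℝ) : ℂ) * Complex.I := by
      push_cast
      ring
    rw [e5, Complex.norm_exp_ofReal_mul_I]
  rw [e4, one_mul]
  refine (Real.norm_exp_I_mul_ofReal_sub_one_le).trans ?_
  rw [Real.norm_eq_abs, abs_mul, abs_of_nonneg (by positivity : (0 : ℝ) ≤ 2 * Real.pi * N)]

/-- **S2.** -/
theorem s_S2 : S_S2 := by
  intro k K c G hk hc hG i _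
  by_contra hcon
  push Not at hcon
  obtain ⟨⟨x, hx, hxG⟩, y, hy, hyG⟩ := hcon
  obtain ⟨F, hF, h1, h2⟩ := hG x hxG y hyG
  obtain ⟨t, ⟨ht1, ht2⟩, rfl⟩ := hx
  obtain ⟨t', ⟨ht1', ht2'⟩, rfl⟩ := hy
  have h2K : (0 : ℝ) < 2 ^ K := by positivity
  obtain ⟨δ, hδ⟩ : ∃ δ : ℝ, t' = t + 1 / 2 + δ := ⟨t' - t - 1 / 2, by ring⟩
  have e0 : ((i + 2 ^ K : ℕ) : ℝ) / 2 ^ (K + 1) = (i : ℝ) / 2 ^ (K + 1) + 1 / 2 := by
    push_cast
    rw [pow_succ]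
    field_simp
  have e0' : (((i + 2 ^ K : ℕ) : ℝ) + 1) / 2 ^ (K + 1) =
      ((i : ℝ) + 1) / 2 ^ (K + 1) + 1 / 2 := by
    push_cast
    rw [pow_succ]
    field_simp
    ring
  rw [e0] at ht1'
  rw [e0'] at ht2'
  have hd : |δ| ≤ 1 / 2 ^ (K + 1) := by
    have e1 : ((i : ℝ) + 1) / 2 ^ (K + 1) = (i : ℝ) / 2 ^ (K + 1) + 1 / 2 ^ (K + 1) := by
      rw [add_div]
    rw [e1] at ht2 ht2'
    rw [abs_le]
    constructor <;> linarith
  have hbd : ∀ b ∈ F, ‖(fourier ((k * 3 ^ b : ℕ) : ℤ) ((t : ℝ) : Tor) : ℂ) +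
      fourier ((k * 3 ^ b : ℕ) : ℤ) ((t' : ℝ) : Tor)‖ ≤ ‖c‖ := by
    intro b hb
    have hodd : Odd (k * 3 ^ b) := hk.mul (Odd.pow (by decide))
    rw [hδ]
    refine (fourier_add_le _ hodd t δ).trans ?_
    have h3 := hF b hb
    have h4 : 2 * Real.pi * ((k * 3 ^ b : ℕ) : ℝ) * |δ| ≤
        2 * Real.pi * ((k * 3 ^ b : ℕ) : ℝ) * (1 / 2 ^ (K + 1)) :=
      mul_le_mul_of_nonneg_left hd (by positivity)
    refine h4.trans ?_
    have h5 : 2 * Real.pi * ((k * 3 ^ b : ℕ) : ℝ) * (1 / 2 ^ (K + 1)) =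
        Real.pi * k * 3 ^ b / 2 ^ K := by
      push_cast
      rw [pow_succ]
      field_simp
    rw [h5, div_le_iff₀ h2K]
    exact h3
  have hsum : ‖rav 3 k F ((t : ℝ) : Tor) + rav 3 k F ((t' : ℝ) : Tor)‖ ≤ ‖c‖ := by
    unfold rav
    rw [← add_div, ← Finset.sum_add_distrib, norm_div, Complex.norm_natCast]
    rcases Finset.eq_empty_or_nonempty F with h0 | h0
    · rw [h0]
      simp
    · have hcard : (0 : ℝ) < F.card := by exact_mod_cast h0.card_pos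
      rw [div_le_iff₀ hcard]
      refine (norm_sum_le _ _).trans ((Finset.sum_le_sum hbd).trans ?_)
      rw [Finset.sum_const, nsmul_eq_mul, mul_comm]
  have h3 : c + c = (rav 3 k F ((t : ℝ) : Tor) + rav 3 k F ((t' : ℝ) : Tor)) -
      (rav 3 k F ((t : ℝ) : Tor) - c) - (rav 3 k F ((t' : ℝ) : Tor) - c) := by ring
  have h4 : ‖c + c‖ = 2 * ‖c‖ := by
    rw [← two_mul, norm_mul]
    simp
  have h5 : ‖c + c‖ ≤ ‖rav 3 k F ((t : ℝ) : Tor) + rav 3 k F ((t' : ℝ) : Tor)‖ +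
      ‖rav 3 k F ((t : ℝ) : Tor) - c‖ + ‖rav 3 k F ((t' : ℝ) : Tor) - c‖ := by
    rw [h3]
    exact (norm_sub_le _ _).trans (add_le_add_left (norm_sub_le _ _) _)
  rw [h4] at h5
  linarith

end Pool.Agent.Helper43.MX
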