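import Pool.Agent.Helper87.MX.Fr3

/-!
# MixingRates, SO: separation by an odd Lipschitz function
-/

set_option autoImplicit false

namespace Pool.Agent.Helper43.MX

open Pool.Agent.Helper87.MX

/-- two points in opposite dyadic arcs -/
theorem opposite_arcs {K i : ℕ} {x y : Tor} (hx : x ∈ arc (K + 1) i)
    (hy : y ∈ arc (K + 1) (i + 2 ^ K)) :
    ‖y - (x + ((1 / 2 : ℝ) : Tor))‖ ≤ 1 / 2 ^ (K + 1) := by
  obtain ⟨t, ⟨ht1, ht2⟩, rfl⟩ := hx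
  obtain ⟨t', ⟨ht1', ht2'⟩, rfl⟩ := hy
  have e0 : ((i + 2 ^ K : ℕ) : ℝ) / 2 ^ (K + 1) = (i : ℝ) / 2 ^ (K + 1) + 1 / 2 := by
    push_cast
    rw [pow_succ]
    field_simp
  have e0' : (((i + 2 ^ K : ℕ) : ℝ) + 1) / 2 ^ (K + 1) =
      ((i : ℝ) + 1) / 2 ^ (K + 1) + 1 / 2 := by
    push_cast
    rw [pow_succ]
    field_simp
    ring
  rw [e0] at ht1'
  rw [e0'] at ht2'
  have e1 : ((i : ℝ) + 1) / 2 ^ (K + 1) = (i : ℝ) / 2 ^ (K + 1) + 1 / 2 ^ (K + 1) := by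
    rw [add_div]
  rw [e1] at ht2 ht2'
  have hd : |t' - (t + 1 / 2)| ≤ 1 / 2 ^ (K + 1) := by
    rw [abs_le]
    constructor <;> linarith
  have e2 : ((t' : ℝ) : Tor) - (((t : ℝ) : Tor) + ((1 / 2 : ℝ) : Tor)) =
      ((t' - (t + 1 / 2) : ℝ) : Tor) := rfl
  show ‖((t' : ℝ) : Tor) - (((t : ℝ) : Tor) + ((1 / 2 : ℝ) : Tor))‖ ≤ _
  rw [e2]
  exact (QuotientAddGroup.norm_mk_le_norm).trans hd

/-- **SO.** -/
theorem s_SO : S_SO := by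
  intro K P hP i _
  by_contra hcon
  push Not at hcon
  obtain ⟨⟨x, hx, hxG⟩, y, hy, hyG⟩ := hcon
  rw [Set.mem_ofPred_eq] at hxG hyG
  have h1 := opposite_arcs hx hy
  have h2 := hP.2 y (x + ((1 / 2 : ℝ) : Tor))
  rw [hP.1 x, sub_neg_eq_add] at h2
  have h3 : (2 : ℝ) ^ (K + 1) * ‖y - (x + ((1 / 2 : ℝ) : Tor))‖ ≤ 1 := by
    refine (mul_le_mul_of_nonneg_left h1 (by positivity)).trans ?_
    rw [mul_one_div, div_self (by positivity)]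
  have h4 : ‖(2 : ℂ)‖ ≤ ‖P y + P x‖ + ‖P x - 1‖ + ‖P y - 1‖ := by
    have e : (2 : ℂ) = (P y + P x) - (P x - 1) - (P y - 1) := by ring
    rw [e]
    exact (norm_sub_le _ _).trans (add_le_add_left (norm_sub_le _ _) _)
  have h5 : ‖(2 : ℂ)‖ = 2 := by simp
  rw [h5] at h4
  linarith

end Pool.Agent.Helper43.MX
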