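import Pool.Agent.Helper87.MX.Fr5
import Mathlib.MeasureTheory.Measure.Prokhorov

/-!
# MixingRates, UM: the uniform version, by compactness of the space of probability measures
-/

set_option autoImplicit false

open MeasureTheory Filter Topology

namespace Pool.Agent.Helper43.MX

open Pool.Agent.Helper87.MX

/-- the coefficients of a limit of measures -/
theorem tendsto_cf {F : Filter ℕ} {P : ℕ → ProbabilityMeasure Tor} {ν : ProbabilityMeasure Tor}
    (h : Tendsto P F (𝓝 ν)) (n : ℤ) :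
    Tendsto (fun L => cf (P L : Measure Tor) n) F (𝓝 (cf (ν : Measure Tor) n)) := by
  have h1 := (ProbabilityMeasure.tendsto_iff_forall_integral_rclike_tendsto ℂ).1 h
    (BoundedContinuousFunction.mkOfCompact (fourier n : C(Tor, ℂ)))
  exact h1

/-- limits of invariant measures are invariant -/
theorem inv_limit {F : Filter ℕ} [F.NeBot] {P : ℕ → ProbabilityMeasure Tor}
    {ν : ProbabilityMeasure Tor} (h : Tendsto P F (𝓝 ν)) (g : ℕ)
    (hg : ∀ L, Inv g (P L : Measure Tor)) : Inv g (ν : Measure Tor) := by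
  have hc : Continuous fun x : Tor => g • x := continuous_const_smul g
  have h1 := ProbabilityMeasure.tendsto_map_of_tendsto_of_continuous P ν h hc
  have h2 : ∀ L, (P L).map hc.measurable.aemeasurable = P L := by
    intro L
    apply Subtype.ext
    exact (hg L).map_eq
  simp only [h2] at h1
  have h3 := tendsto_nhds_unique h h1
  refine ⟨hc.measurable, ?_⟩
  have h4 := congrArg (fun m : ProbabilityMeasure Tor => (m : Measure Tor)) h3
  exact h4.symm

/-- **UM.** -/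
theorem s_UM (hUA : S_UA) : S_UM := by
  intro ρ γ ε hρ hsum hγ hε
  by_contra hcon
  push Not at hcon
  choose μ hμ h2 h3 g hg hmix h4 h5 using hcon
  let P : ℕ → ProbabilityMeasure Tor := fun L => ⟨μ L, hμ L⟩
  obtain ⟨ν, -, hν⟩ := (isCompact_univ (X := ProbabilityMeasure Tor)).ultrafilter_le_nhds
    ((hyperfilter ℕ).map P) (by simp)
  have hT : Tendsto P (hyperfilter ℕ : Filter ℕ) (𝓝 ν) := hν
  have hcf : ∀ n, Tendsto (fun L => cf (μ L) n) (hyperfilter ℕ : Filter ℕ)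
      (𝓝 (cf (ν : Measure Tor) n)) := fun n => tendsto_cf hT n
  have hi2 : Inv 2 (ν : Measure Tor) := inv_limit hT 2 h2
  have hi3 : Inv 3 (ν : Measure Tor) := inv_limit hT 3 h3
  obtain ⟨g₀, hg₀, hev⟩ : ∃ g₀ : ℕ, (g₀ = 2 ∨ g₀ = 3) ∧
      ∀ᶠ L in (hyperfilter ℕ : Filter ℕ), g L = g₀ := by
    have h6 : ∀ᶠ L in (hyperfilter ℕ : Filter ℕ), g L = 2 ∨ g L = 3 := Eventually.of_forall hg
    rcases Ultrafilter.eventually_or.1 h6 with h7 | h7
    · exact ⟨2, Or.inl rfl, h7⟩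
    · exact ⟨3, Or.inr rfl, h7⟩
  have hM : Mix4 (cf (ν : Measure Tor)) g₀ 1 := by
    refine ⟨ρ, γ, hρ, hsum, hγ, ?_⟩
    intro b₁ b₂ b₃ b₄ D e₁ e₂ e₃ e₄ he₁ he₂ he₃ he₄ hb₁ hb₂ hb₃ hb₄ hb₅ hb₆
    refine le_of_tendsto ((hcf _).sub ((hcf _).mul (hcf _))).norm ?_
    have hbig : ∀ᶠ L in (hyperfilter ℕ : Filter ℕ), b₁ + b₂ + b₃ + b₄ + D ≤ L :=
      (eventually_ge_atTop _).filter_mono Nat.hyperfilter_le_atTop
    filter_upwards [hev, hbig] with L hL hL2
    have h8 := hmix L b₁ b₂ b₃ b₄ D e₁ e₂ e₃ e₄ (by omega) (by omega) (by omega) (by omega)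
      (by omega) he₁ he₂ he₃ he₄ hb₁ hb₂ hb₃ hb₄ hb₅ hb₆
    rw [hL] at h8
    exact h8
  have h7 : ε ≤ ‖cf (ν : Measure Tor) 1‖ := ge_of_tendsto (hcf 1).norm (Eventually.of_forall h4)
  have h8 : ε ≤ ‖1 - cf (ν : Measure Tor) 1‖ :=
    ge_of_tendsto (tendsto_const_nhds.sub (hcf 1)).norm (Eventually.of_forall h5)
  rcases hUA ν inferInstance hi2 hi3 g₀ hg₀ hM with h9 | h9
  · rw [h9, norm_zero] at h7
    linarith
  · rw [h9, sub_self, norm_zero] at h8
    linarith

end Pool.Agent.Helper43.MX
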